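import Pool.Agent.H78.Uni.Final

/-!
# Common partition counts of two trees need not be unimodal

`n = 300000`.  The leaves are cut into `60000` blocks of five consecutive leaves.  `T` is the
caterpillar with the natural leaf order; `F` is the caterpillar whose blocks are ordered as the
perfect shuffle of the first and the second half of the block set (the order inside each block is
kept).  The partitions all of whose classes lie inside blocks (34 choices per block, on average
more than 3 classes per block) and the partitions with one large class spread over all blocks
(32 choices per block, 2.5 classes per block on average) give two separate peaks.
-/

set_option autoImplicit false

namespace Pool.Agent.Results.MP_afdbb1_co.NotUnimodal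

open Pool.Agent.R935.Phylo Pool.Agent.H78.Uni

/-- The sequence of common partition counts is not unimodal for some pair of trees. -/
theorem result : ∃ (n : ℕ) (T F : PhyloTree n), ¬ Unimodal n (common T F) :=
  ⟨299998 + 2, T1t, T2t, nonC⟩

end Pool.Agent.Results.MP_afdbb1_co.NotUnimodal
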